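import Mathlib
import Pool.Agent.R272.Conf.Defs

set_option autoImplicit false

namespace Pool.Agent.Results.MP_3ddb5a_an.UnboundedArea

open Pool.Agent.R272.Conf MeasureTheory

/-- The supersolution `u(x,y) = -log cosh x - ε y²`. -/
noncomputable def U (ε : ℝ) (p : ℝ × ℝ) : ℝ := -Real.log (Real.cosh p.1) - ε * p.2 ^ 2

lemma U_smooth (ε : ℝ) : ContDiff ℝ 2 (U ε) := by
  unfold U
  have h1 : ContDiff ℝ 2 (fun p : ℝ × ℝ => Real.cosh p.1) :=
    Real.contDiff_cosh.comp contDiff_fst
  have h2 : ContDiff ℝ 2 (fun p : ℝ × ℝ => Real.log (Real.cosh p.1)) :=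
    h1.log (fun p => (Real.cosh_pos p.1).ne')
  exact h2.neg.sub (contDiff_const.mul (contDiff_snd.pow 2))

lemma lap_U (ε : ℝ) (p : ℝ × ℝ) : lap (U ε) p = -(1 / Real.cosh p.1 ^ 2) - 2 * ε := by
  unfold lap
  have h1 : ∀ s : ℝ, deriv (fun t => U ε (t, p.2)) s = -(Real.sinh s / Real.cosh s) := by
    intro s
    have h : HasDerivAt (fun t : ℝ => -Real.log (Real.cosh t) - ε * p.2 ^ 2)
        (-(Real.sinh s / Real.cosh s)) s :=
      (((Real.hasDerivAt_cosh s).log (Real.cosh_pos s).ne').neg).sub_const _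
    exact h.deriv
  have h2 : ∀ s : ℝ, deriv (fun t => U ε (p.1, t)) s = -(ε * (2 * s)) := by
    intro s
    have h : HasDerivAt (fun t : ℝ => -Real.log (Real.cosh p.1) - ε * t ^ 2)
        (-(ε * (2 * s))) s := by
      have h0 : HasDerivAt (fun t : ℝ => t ^ 2) (2 * s) s := by
        simpa using hasDerivAt_pow 2 s
      exact (h0.const_mul ε).const_sub _
    exact h.deriv
  rw [funext h1, funext h2]
  have h3 : deriv (fun s => -(Real.sinh s / Real.cosh s)) p.1 = -(1 / Real.cosh p.1 ^ 2) := by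
    have h := (((Real.hasDerivAt_sinh p.1).div (Real.hasDerivAt_cosh p.1)
      (Real.cosh_pos p.1).ne').neg)
    have e := h.deriv
    rw [show (fun s => -(Real.sinh s / Real.cosh s)) = (-(Real.sinh / Real.cosh)) from rfl, e]
    have := Real.cosh_sq p.1
    have hc := (Real.cosh_pos p.1).ne'
    rw [show Real.cosh p.1 * Real.cosh p.1 - Real.sinh p.1 * Real.sinh p.1 = 1 by nlinarith]
  have h4 : deriv (fun s : ℝ => -(ε * (2 * s))) p.2 = -(2 * ε) := by
    have h : HasDerivAt (fun s : ℝ => -(ε * (2 * s))) (-(ε * (2 * 1))) p.2 :=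
      (((hasDerivAt_id p.2).const_mul 2).const_mul ε).neg
    rw [h.deriv]; ring
  rw [h3, h4]
  ring

lemma exp_U (ε : ℝ) (p : ℝ × ℝ) :
    Real.exp (2 * U ε p) = (1 / Real.cosh p.1 ^ 2) * Real.exp (-(2 * ε) * p.2 ^ 2) := by
  unfold U
  have hc := Real.cosh_pos p.1
  rw [show 2 * (-Real.log (Real.cosh p.1) - ε * p.2 ^ 2) =
    -(2 * Real.log (Real.cosh p.1)) + -(2 * ε) * p.2 ^ 2 by ring, Real.exp_add, Real.exp_neg,
    two_mul, Real.exp_add, Real.exp_log hc]
  congr 1
  rw [one_div, sq]

lemma int_sech : Integrable (fun x : ℝ => 1 / Real.cosh x ^ 2) := by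
  refine Integrable.mono' integrable_inv_one_add_sq ?_ ?_
  · exact (Continuous.aestronglyMeasurable (by
      refine Continuous.div continuous_const (Real.continuous_cosh.pow 2) ?_
      intro x
      exact pow_ne_zero 2 (Real.cosh_pos x).ne'))
  · refine Filter.Eventually.of_forall (fun x => ?_)
    rw [Real.norm_of_nonneg (by positivity), one_div]
    have h1 : 1 + x ^ 2 ≤ Real.cosh x ^ 2 := by
      rw [Real.cosh_sq]
      have h2 : x ^ 2 ≤ Real.sinh x ^ 2 := by
        rw [← sq_abs x, ← sq_abs (Real.sinh x)]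
        have : |x| ≤ |Real.sinh x| := by
          rcases le_total 0 x with hx | hx
          · rw [abs_of_nonneg hx, abs_of_nonneg (Real.sinh_nonneg_iff.mpr hx)]
            exact Real.self_le_sinh_iff.mpr hx
          · rw [abs_of_nonpos hx, abs_of_nonpos (Real.sinh_nonpos_iff.mpr hx)]
            have := Real.sinh_le_self_iff.mpr hx
            linarith
        gcongr
      linarith
    exact inv_anti₀ (by positivity) h1

/-- Disproof of Q1: there are `C²` supersolutions of the Liouville equation on `ℝ²`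
(conformal metrics of curvature at least one) with finite but arbitrarily large area; in
particular the area can exceed `4π`. -/
theorem result : ∀ A : ℝ, ∃ u : ℝ × ℝ → ℝ, ContDiff ℝ 2 u ∧
    (∀ p, lap u p + Real.exp (2 * u p) ≤ 0) ∧
    Integrable (fun p => Real.exp (2 * u p)) ∧
    A < ∫ p, Real.exp (2 * u p) := by
  intro A
  set c : ℝ := ∫ x : ℝ, 1 / Real.cosh x ^ 2 with hc
  have hc0 : 0 < c := by
    rw [hc, integral_pos_iff_support_of_nonneg (fun x => by positivity) int_sech]
    have : Function.support (fun x : ℝ => 1 / Real.cosh x ^ 2) = Set.univ := by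
      ext x
      simp only [Function.mem_support, Set.mem_univ, iff_true]
      have := Real.cosh_pos x
      positivity
    rw [this]
    simp
  -- choose ε
  obtain ⟨ε, hε, hA⟩ : ∃ ε : ℝ, 0 < ε ∧ A < c * Real.sqrt (Real.pi / (2 * ε)) := by
    set B : ℝ := (|A| + 1) / c with hB
    have hB0 : 0 < B := by positivity
    refine ⟨Real.pi / (2 * B ^ 2), by positivity, ?_⟩
    have e1 : Real.pi / (2 * (Real.pi / (2 * B ^ 2))) = B ^ 2 := by
      have := Real.pi_pos.ne'
      field_simp
    rw [e1, Real.sqrt_sq hB0.le, hB]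
    have e2 : c * ((|A| + 1) / c) = |A| + 1 := by field_simp
    rw [e2]
    have := le_abs_self A
    linarith
  have hg : Integrable (fun y : ℝ => Real.exp (-(2 * ε) * y ^ 2)) :=
    integrable_exp_neg_mul_sq (by positivity)
  have he : (fun p : ℝ × ℝ => Real.exp (2 * U ε p)) =
      (fun p => (1 / Real.cosh p.1 ^ 2) * Real.exp (-(2 * ε) * p.2 ^ 2)) :=
    funext (exp_U ε)
  refine ⟨U ε, U_smooth ε, ?_, ?_, ?_⟩
  · intro p
    rw [lap_U, exp_U]
    have h1 : Real.exp (-(2 * ε) * p.2 ^ 2) ≤ 1 := by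
      rw [Real.exp_le_one_iff]
      have : 0 ≤ 2 * ε * p.2 ^ 2 := by positivity
      linarith
    have h2 : 0 < 1 / Real.cosh p.1 ^ 2 := by
      have := Real.cosh_pos p.1
      positivity
    nlinarith
  · rw [he]
    exact int_sech.mul_prod hg
  · rw [he, Measure.volume_eq_prod, integral_prod_mul (fun x : ℝ => 1 / Real.cosh x ^ 2)
      (fun y : ℝ => Real.exp (-(2 * ε) * y ^ 2)), integral_gaussian]
    exact hA

end Pool.Agent.Results.MP_3ddb5a_an.UnboundedArea
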